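import Pool.Agent.R906.CSSer

/-!
MP_913ab3_an, Q1: the alternating hyperbolic cosecant series is strictly increasing on `[1, ∞)`.
-/

namespace Pool.Agent.Results.MP_913ab3_an.CosechSeriesIncreasing

open Real Set Filter Topology

/-- The terms `(-1)^{k+1} sinh y / sinh (k y)`, `k = 1, 2, …`, with `y = arcosh r` (the index is
shifted by one). -/
noncomputable def term (r : ℝ) (k : ℕ) : ℝ :=
  (-1) ^ k * (sinh (arcosh r) / sinh (((k : ℝ) + 1) * arcosh r))

/-- The sum of the series. -/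
noncomputable def S (r : ℝ) : ℝ := ∑' k : ℕ, term r k

theorem result : (∀ r : ℝ, 1 < r → Summable (term r)) ∧
    ∃ s : ℝ, Tendsto S (𝓝[>] 1) (𝓝 s) ∧ StrictMonoOn (Function.update S 1 s) (Ici 1) := by
  refine ⟨fun r hr => Pool.Agent.R906.CS.series_summable (arcosh_pos hr), ?_⟩
  have hmono : StrictMonoOn S (Ioi 1) := by
    intro r hr r' _ hlt
    have hr0 : (0 : ℝ) < r := lt_trans one_pos hr
    exact Pool.Agent.R906.CS.FF_lt (arcosh_pos hr)
      ((arcosh_lt_arcosh hr0 (hr0.trans hlt)).mpr hlt)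
  have hbdd : BddBelow (S '' Ioi 1) := by
    refine ⟨0, ?_⟩
    rintro _ ⟨r, hr, rfl⟩
    exact Pool.Agent.R906.CS.FF_nonneg (arcosh_pos hr)
  refine ⟨sInf (S '' Ioi 1), hmono.monotoneOn.tendsto_nhdsGT hbdd, ?_⟩
  intro r hr r' hr' hlt
  have h1 : (1 : ℝ) ≤ r := hr
  have hr1 : 1 < r' := lt_of_le_of_lt h1 hlt
  rw [Function.update_of_ne hr1.ne']
  rcases eq_or_lt_of_le h1 with h | h
  · subst h
    rw [Function.update_self]
    have hm : (1 + r') / 2 ∈ Ioi (1 : ℝ) := by
      show 1 < (1 + r') / 2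
      linarith
    calc sInf (S '' Ioi 1) ≤ S ((1 + r') / 2) := csInf_le hbdd (mem_image_of_mem _ hm)
      _ < S r' := hmono hm hr1 (by linarith)
  · rw [Function.update_of_ne h.ne']
    exact hmono h hr1 hlt

end Pool.Agent.Results.MP_913ab3_an.CosechSeriesIncreasing
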